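import Pool.Agent.V7H20.ZF.Far

/-!
# MP_b7926e_nt: no atypical intersections with torsion cosets for all but finitely many members of a
family over a finitely generated field, if the family degenerates at one point with three conjugates

**Families.** Let `A_1, …, A_m ⊂ ℤ^n` be arbitrary finite nonempty sets of exponents and let
`c_jβ ∈ ℂ[t]` be nonzero polynomials, `β ∈ A_j`. For `t ∈ ℂ` let `X_t ⊂ (ℂ^×)^n` be the algebraic set
defined by the Laurent polynomials `f_j = ∑_β c_jβ(t) x^β`, `j ≤ m` (`member`). Every one-parameter
family of subvarieties of the torus is of this form.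

**Tropicalization.** For a point `α` of the projective line the tropicalization of the family at `α` is
the set `Trop_α` of the `w ∈ ℚ^n` such that for all `j` the minimum of the numbers
`ord_α (c_jβ) + β · w`, `β ∈ A_j`, is attained at least twice.

**Theorem.** Let `α_1, …, α_M` be arbitrary points of the projective line over `ℂ` (algebraic,
transcendental or infinite), let `K ⊂ ℂ` be a finitely generated field, and let `Z` be a set of points
of the projective line. Suppose that

(`*`) if the points in `Z` and the conjugates over `K` (the images under the automorphisms of `ℂ` over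
`K`) of the `α_l`, `l ∈ I`, are at most two points altogether, then no linear subspace of `ℚ^n` of
dimension less than `r` meets all the sets `Trop_{α_l}` with `l ∉ I`.

Then for all but finitely many `t` in `K` which are integral over a given finitely generated ring
with respect to the points in `Z`, the set `X_t` has no atypical intersection with the torsion
cosets, and more generally with the cosets `η H` of all algebraic subgroups `H` of the torus by all
points `η` whose coordinates are units of the integral closure of the ring generated by the values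
`h(t)` and `1 / h(t)`, where `h` is in a given finite set of rational functions without zeros and
poles at the `α_l` (for example constants): every irreducible subset of `X_t ∩ η H` has dimension at
most `dim H - r`. In particular (`H` the torus) all components of `X_t` have dimension at most `n - r`,
and for the components `V` of dimension `n - r` the union `Atyp(V)` of the problem is empty.

So if no linear subspace of dimension less than `r` meets all the sets `Trop_{α_l}`, this holds

* for all but finitely many `t` in `K` if all `α_l` have degree at least three over `K`, or are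
  transcendental over `K` (for `r = 1` one such `α` is sufficient, at which one of the equations
  degenerates to a monomial),
* for all but finitely many `t` in a finitely generated subring of `K` if all `α_l` have degree at
  least two over `K` (`Z = {∞}`),
* for all but finitely many `t` in a finitely generated multiplicative group if the `α_l` are any
  complex numbers different from zero (`Z = {0, ∞}`).

As `h(t)` may be a coordinate of a torus, too, the theorem is about the intersections of the variety
`{(h_1(t), …, h_k(t), x) : x ∈ X_t}` with the algebraic subgroups of the torus of dimension `k + n`,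
at the points with `t ∈ K`.

In the starting file `FewExceptionalParameters` the `α_l` are algebraic but there may be infinitely many
exceptional rational parameters. In `MP_c95b3b_ag.FinitelyGeneratedFields` there are finitely many
exceptional parameters in a finitely generated field, but the condition has to hold for all choices of
representatives of the sets of conjugates (so if the coefficients of the `c_jβ` are not in `K`, not only
for the given `α_l`), for all sets of `N` of the `l`, and the point at infinity, the integrality with
respect to other points and the values `h(t)` do not occur.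

The proof: if `t` is near to `σ(α_l)` at a place of `ℂ` at which the elements of a finite set `σ(W)` are
integral, `σ` an automorphism over `K`, then it is near to `α_l` at another place, which is good for
the family, and the values of the coordinates of a point of `X_t ∩ η H` give a point of `Trop_{α_l}`
on the linear space orthogonal to the group of the relations. Only finitely many `t` are near to none
of three points of the projective line, by the unit equation over finitely generated rings (files
`Y741`, `Y910/Z`).
-/

set_option autoImplicit false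

open Pool.Agent.V7H20.ZF

namespace Pool.Agent.Results.MP_b7926e_nt.ConjugateParametersH20

open Pool.Agent.Results.MP_b7926e_nt.NoAtypical (coset idealOf dim)

variable {n m : ℕ}

/-- The member `X_t` of the family: the points of the torus at which all the Laurent polynomials
`∑_β c_jβ(t) x^β` vanish. -/
def member (A : Fin m → Finset (Fin n → ℤ)) (c : Fin m → (Fin n → ℤ) → Polynomial ℂ) (t : ℂ) :
    Set (Fin n → ℂ) :=
  {x | (∀ i, x i ≠ 0) ∧ ∀ j, ∑ β ∈ A j, (c j β).eval t * ∏ i, x i ^ β i = 0}

/-- The tropicalization of a system with the supports `A_j` and coefficients of the orders `e_jβ`: the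
points `w` of `ℚ^n` such that for all `j` the minimum of `e_jβ + β · w` is attained at two different
exponents `a, b ∈ A_j`. -/
def Trop (A : Fin m → Finset (Fin n → ℤ)) (e : Fin m → (Fin n → ℤ) → ℤ) : Set (Fin n → ℚ) :=
  {w | ∀ j, ∃ a ∈ A j, ∃ b ∈ A j, a ≠ b ∧
    (e j a : ℚ) + ∑ i, (a i : ℚ) * w i = (e j b : ℚ) + ∑ i, (b i : ℚ) * w i ∧
    ∀ β ∈ A j, (e j a : ℚ) + ∑ i, (a i : ℚ) * w i ≤ (e j β : ℚ) + ∑ i, (β i : ℚ) * w i}

/-- The values at `t` of the rational functions `f / g` and `g / f`, `(f, g) ∈ U`. -/
def values (U : Finset (Polynomial ℂ × Polynomial ℂ)) (t : ℂ) : Set ℂ :=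
  {x | ∃ q ∈ U, x = q.1.eval t / q.2.eval t ∨ x = q.2.eval t / q.1.eval t}

/-- `z` is a unit of the integral closure in `ℂ` of the ring generated by `Γ`. -/
def IsUnitOver (Γ : Set ℂ) (z : ℂ) : Prop :=
  z ≠ 0 ∧ IsIntegral (Algebra.adjoin ℤ Γ) z ∧ IsIntegral (Algebra.adjoin ℤ Γ) z⁻¹

/-- `X` has no atypical intersection with the cosets of algebraic subgroups by points whose
coordinates are units over `Γ`: every irreducible subset `B` of `X ∩ η H` has dimension at most
`dim H - r`. Here `η H = {y | y ^ a = η ^ a for all a in Λ}` and `dim H = n - rank Λ`. -/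
def NoAtypical (r : ℕ) (Γ : Set ℂ) (X : Set (Fin n → ℂ)) : Prop :=
  ∀ (Λ : Submodule ℤ (Fin n → ℤ)) (η : Fin n → ℂ), (∀ i, IsUnitOver Γ (η i)) →
    ∀ B : Set (Fin n → ℂ), B ⊆ X → B ⊆ coset Λ η → (idealOf B).IsPrime →
      dim B + (r : Cardinal) + (Module.finrank ℤ Λ : Cardinal) ≤ (n : Cardinal)

/-- One-parameter families of subvarieties of the torus over a finitely generated field: all but
finitely many members have no atypical intersection, if the tropicalizations at the points which
do not belong to at most two conjugates altogether are in general position. -/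
theorem result {M : ℕ} (r : ℕ) (A : Fin m → Finset (Fin n → ℤ)) (hA : ∀ j, (A j).Nonempty)
    (c : Fin m → (Fin n → ℤ) → Polynomial ℂ) (hc : ∀ j, ∀ β ∈ A j, c j β ≠ 0)
    (α : Fin M → Option ℂ) (U : Finset (Polynomial ℂ × Polynomial ℂ))
    (hU : ∀ q ∈ U, q.1 ≠ 0 ∧ q.2 ≠ 0 ∧ ∀ l, ord q.1 (α l) = ord q.2 (α l))
    (F G : Finset ℂ) (Z : Set (Option ℂ))
    (hgen : ∀ I : Finset (Fin M), (Z ∪ ⋃ l ∈ I, Conjugates (F : Set ℂ) (α l)).encard ≤ 2 →
      ∀ L : Submodule ℚ (Fin n → ℚ), Module.finrank ℚ L < r →
        ∃ l ∉ I, ∀ w ∈ L, w ∉ Trop A fun j β => ord (c j β) (α l)) :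
    {t : ℂ | t ∈ Subfield.closure (F : Set ℂ) ∧ (∀ z ∈ Z, IntegralAt (G : Set ℂ) t z) ∧
      ¬ NoAtypical r (values U t) (member A c t)}.Finite := by
  classical
  -- the polynomials
  let S : Finset (Polynomial ℂ) := (Finset.univ.biUnion fun j => (A j).image fun β => c j β) ∪
    (U.image Prod.fst ∪ U.image Prod.snd)
  have hSc : ∀ j, ∀ β ∈ A j, c j β ∈ S := by
    intro j β hβ
    simp only [S, Finset.mem_union, Finset.mem_biUnion, Finset.mem_univ, true_and,
      Finset.mem_image]
    exact Or.inl ⟨j, β, hβ, rfl⟩
  have hS1 : ∀ q ∈ U, q.1 ∈ S := by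
    intro q hq
    simp only [S, Finset.mem_union, Finset.mem_image]
    exact Or.inr (Or.inl ⟨q, hq, rfl⟩)
  have hS2 : ∀ q ∈ U, q.2 ∈ S := by
    intro q hq
    simp only [S, Finset.mem_union, Finset.mem_image]
    exact Or.inr (Or.inr ⟨q, hq, rfl⟩)
  have hS0 : ∀ f ∈ S, f ≠ 0 := by
    intro f hf
    simp only [S, Finset.mem_union, Finset.mem_biUnion, Finset.mem_univ, true_and,
      Finset.mem_image] at hf
    rcases hf with ⟨j, β, hβ, rfl⟩ | ⟨q, hq, rfl⟩ | ⟨q, hq, rfl⟩
    · exact hc j β hβ
    · exact (hU q hq).1
    · exact (hU q hq).2.1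
  obtain ⟨W, hnear⟩ := exists_near S hS0 α
  -- the exceptional parameters
  have hroots : (⋃ f ∈ S, {t : ℂ | f.eval t = 0}).Finite := by
    refine S.finite_toSet.biUnion fun f hf => ?_
    refine (f.roots).toFinset.finite_toSet.subset fun t ht => ?_
    rw [Finset.mem_coe, Multiset.mem_toFinset, Polynomial.mem_roots (hS0 f hf)]
    exact ht
  have hfin : (⋃ I ∈ {I : Finset (Fin M) |
      ¬ (Z ∪ ⋃ l ∈ I, Conjugates (F : Set ℂ) (α l)).encard ≤ 2},
      {t : ℂ | t ∈ Subfield.closure (F : Set ℂ) ∧ (∀ z ∈ Z, IntegralAt (G : Set ℂ) t z) ∧
        ∀ l ∈ I, Far (W : Set ℂ) t (α l)}).Finite :=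
    (Set.toFinite _).biUnion fun I hI => finite_exc W F G Z α I hI
  refine (hfin.union (hroots.union (Set.finite_range fun l => (α l).getD 0))).subset ?_
  rintro t ⟨htF, htZ, ht⟩
  by_contra hcon
  rw [Set.mem_union, Set.mem_union, not_or, not_or] at hcon
  obtain ⟨h1, h2, h3⟩ := hcon
  apply ht
  have hev : ∀ f ∈ S, f.eval t ≠ 0 := fun f hf h => h2 (Set.mem_iUnion₂.2 ⟨f, hf, h⟩)
  let I : Finset (Fin M) := Finset.univ.filter fun l => Far (W : Set ℂ) t (α l)
  have hI : ∀ l, l ∈ I ↔ Far (W : Set ℂ) t (α l) := fun l => by simp [I]
  have hcard : (Z ∪ ⋃ l ∈ I, Conjugates (F : Set ℂ) (α l)).encard ≤ 2 := by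
    by_contra h
    exact h1 (Set.mem_iUnion₂.2 ⟨I, h, htF, htZ, fun l hl => (hI l).1 hl⟩)
  -- the places
  have hV : ∀ l, l ∉ I → ∃ V : ValuationSubring ℂ, (∀ z ∈ W, z ∈ V) ∧ NearAt V t (α l) := by
    intro l hl
    rw [hI, Far] at hl
    push Not at hl
    obtain ⟨V, hV1, hV2⟩ := hl
    exact ⟨V, fun z hz => hV1 z hz, hV2⟩
  let e := (Iᶜ).equivFin.symm
  have he : ∀ i, (e i : Fin M) ∉ I := fun i => Finset.mem_compl.1 (e i).2
  choose V hVW hVn using fun i => hV (e i) (he i)
  have hunif : ∀ i, unif t (α (e i)) ≠ 0 := by
    intro i
    have hn := hVn i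
    rcases hα : α (e i) with _ | a
    · rw [hα] at hn
      have h4 : 1 < (V i).valuation t := hn
      change t⁻¹ ≠ 0
      refine inv_ne_zero ?_
      rintro rfl
      rw [map_zero] at h4
      exact absurd h4 (not_lt.2 zero_le_one)
    · change t - a ≠ 0
      refine sub_ne_zero.2 fun h => h3 ⟨e i, ?_⟩
      simp only [hα, Option.getD_some]
      exact h.symm
  intro Λ η hη B hBX hBT hB
  refine Pool.Agent.Y199.ZF.crit A hA (fun j β => (c j β).eval t)
    (fun j β hβ => hev _ (hSc j β hβ)) V (fun i => unif t (α (e i))) hunif
    (fun i => unif_lt (hVn i)) (fun i j β => ord (c j β) (α (e i)))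
    (fun i j β hβ => hnear (V i) (hVW i) (e i) t (hVn i) _ (hSc j β hβ)) (fun L hL => ?_) Λ η
    (fun i => (hη i).1) (fun i k => ?_) B hBX hBT hB
  · obtain ⟨l, hl, h4⟩ := hgen I hcard L hL
    refine ⟨(Iᶜ).equivFin ⟨l, Finset.mem_compl.2 hl⟩, ?_⟩
    have h5 : ((e ((Iᶜ).equivFin ⟨l, Finset.mem_compl.2 hl⟩) : (Iᶜ : Finset (Fin M))) : Fin M)
        = l := by
      simp [e]
    rw [h5]
    exact h4
  · -- units
    have hval : ∀ x ∈ values U t, x ∈ V i := by
      rintro x ⟨q, hq, hx⟩
      have h6 := hnear (V i) (hVW i) (e i) t (hVn i) _ (hS1 q hq)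
      have h7 := hnear (V i) (hVW i) (e i) t (hVn i) _ (hS2 q hq)
      rw [← (hU q hq).2.2 (e i), ← h6] at h7
      have h8 := hev _ (hS1 q hq)
      have h9 : (V i).valuation (q.1.eval t) ≠ 0 := (Valuation.ne_zero_iff _).2 h8
      rw [← ValuationSubring.valuation_le_one_iff]
      rcases hx with rfl | rfl
      · rw [map_div₀, h7, div_self h9]
      · rw [map_div₀, h7, div_self h9]
    have h10 := (ValuationSubring.valuation_le_one_iff _ _).2 (mem_of_integral hval (hη k).2.1)
    have h11 := (ValuationSubring.valuation_le_one_iff _ _).2 (mem_of_integral hval (hη k).2.2)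
    refine le_antisymm h10 ?_
    rw [map_inv₀] at h11
    exact (inv_le_one₀ (zero_lt_iff.2 ((Valuation.ne_zero_iff _).2 (hη k).1))).1 h11

end Pool.Agent.Results.MP_b7926e_nt.ConjugateParametersH20
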