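import Pool.Agent.V7H20.ZT.Fin
import Pool.Agent.Results.MP_b7926e_nt.ConjugateParametersH20

/-!
# MP_b7926e_nt: no atypical subvarieties in all but finitely many translates of an arbitrary subvariety
of a torus along a rational curve, for parameters in a finitely generated field

Let `V` be an arbitrary irreducible subvariety of the torus `(ℂ^×)^n`, for example one with many
atypical subvarieties (a subvariety of a proper algebraic subgroup, say).  There is a number `κ`,
depending only on `V`, with the following property.  Let `g = (p_i / q_i)_i` be any rational curve in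
the torus, `K ⊂ ℂ` a finitely generated field, and let `α_1, …, α_M` be arbitrary points of the
projective line over `ℂ` (algebraic, transcendental or infinite).  Suppose that every nonzero
character `χ` of the torus has order zero along `g` at no more than `τ` of the points `α_l`, and that
`κ τ + |I| < M` for every set `I` of indices such that the conjugates over `K` of the `α_l`, `l ∈ I`
(the images under the automorphisms of `ℂ` over `K`) are at most two points.  Then for all but
finitely many `t` in `K` the translate `g(t) V` has no atypical subvarieties: the set `Atyp` of the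
problem is empty for `g(t) V`.  More generally the cosets `η H` of all algebraic subgroups by all
points `η` whose coordinates are units of the integral closure of the ring generated by the values
`h(t)` and `1 / h(t)`, for finitely many rational functions `h` without zeros and poles at the `α_l`,
have only typical intersections with `g(t) V`: every irreducible subset `B` of `g(t) V ∩ η H`
satisfies `dim B ≤ dim V + dim H - n`.

For example, if any `n` of the `M` vectors of orders of `g` are linearly independent, then
`τ = n - 1`; for different points `α_l` it suffices that `κ τ + 2 < M`, and if all `α_l` have degree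
at least three over `K` or are transcendental over `K`, that `κ τ < M`.

For `t` integral with respect to the points of a set `Z` over a finitely generated ring, the points
of `Z` count too: for `t` in a finitely generated subring of `K` (`Z = {∞}`) and points `α_l` of
degree at least two, or `t` in a finitely generated multiplicative group (`Z = {0, ∞}`) and any points
`α_l` different from `0` and `∞`, it suffices that `κ τ < M`.

The starting file `AlmostAllSUnitTranslates` of this problem is about translates by `S`-units of
varieties; `MP_a325a5_ag.RationalTranslates` treats rational parameters and integral points `α_l`.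
The proof: the translates are contained in the members of a family of systems of Laurent polynomials,
with the monomials of algebraic relations between any `dim V + 1` of the coordinates on `V`; if
the tropicalizations of the system at more than `κ τ` of the points met one linear space of dimension
less than `n - dim V`, then some nonzero character would have order zero at more than `τ` of them.  So
the theorem follows from that on families (file `ConjugateParametersH20`).
-/

set_option autoImplicit false

open Polynomial Pool.Agent.V7H20.ZF

namespace Pool.Agent.Results.MP_b7926e_nt.FinitelyGeneratedTranslatesH20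

open Pool.Agent.Results.MP_b7926e_nt.NoAtypical (coset idealOf dim)
open Pool.Agent.Results.MP_b7926e_nt.ConjugateParametersH20 (values IsUnitOver)

variable {n : ℕ}

/-- The translate of `V` by `g`. -/
def translate (g : Fin n → ℂ) (V : Set (Fin n → ℂ)) : Set (Fin n → ℂ) :=
  {y | ∃ x ∈ V, ∀ i, y i = g i * x i}

/-- `W` has only typical intersections with the cosets of algebraic subgroups by points whose
coordinates are units over `Γ`: every irreducible subset `B` of `W ∩ η H` has dimension at most
`dim W + dim H - n`. Here `η H = {y | y ^ a = η ^ a for all a in Λ}` and `dim H = n - rank Λ`. -/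
def OnlyTypical (Γ : Set ℂ) (W : Set (Fin n → ℂ)) : Prop :=
  ∀ (Λ : Submodule ℤ (Fin n → ℤ)) (η : Fin n → ℂ), (∀ i, IsUnitOver Γ (η i)) →
    ∀ B : Set (Fin n → ℂ), B ⊆ W → B ⊆ coset Λ η → (idealOf B).IsPrime →
      dim B + (Module.finrank ℤ Λ : Cardinal) ≤ dim W

/-- All but finitely many translates of an arbitrary irreducible subvariety of the torus by the points
of a rational curve with parameter in a finitely generated field have only typical intersections, if
the zeros and poles of the curve are in general position. -/
theorem result (V : Set (Fin n → ℂ)) (hV : (idealOf V).IsPrime) (hV0 : ∀ x ∈ V, ∀ i, x i ≠ 0) :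
    ∃ κ : ℕ, ∀ p q : Fin n → Polynomial ℂ, (∀ i, p i ≠ 0 ∧ q i ≠ 0) →
      ∀ (F G : Finset ℂ) (τ M : ℕ) (α : Fin M → Option ℂ),
      (∀ χ : Fin n → ℤ, χ ≠ 0 →
        {l | ∑ i, χ i * (ord (p i) (α l) - ord (q i) (α l)) = 0}.ncard ≤ τ) →
      ∀ Z : Set (Option ℂ),
      (∀ I : Finset (Fin M), (Z ∪ ⋃ l ∈ I, Conjugates (F : Set ℂ) (α l)).encard ≤ 2 →
        κ * τ + I.card < M) →
      ∀ U : Finset (Polynomial ℂ × Polynomial ℂ), (∀ h ∈ U, h.1 ≠ 0 ∧ h.2 ≠ 0 ∧
        ∀ l, ord h.1 (α l) = ord h.2 (α l)) →
      {t : ℂ | t ∈ Subfield.closure (F : Set ℂ) ∧ (∀ z ∈ Z, IntegralAt (G : Set ℂ) t z) ∧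
        ¬ OnlyTypical (values U t)
          (translate (fun i => (p i).eval t / (q i).eval t) V)}.Finite := by
  classical
  obtain ⟨δ, hδ⟩ := Cardinal.lt_aleph0.1 (Pool.Agent.V7H20.ZT.dim_lt V)
  obtain ⟨κ, m, A, hA, hsys⟩ := Pool.Agent.V7H20.ZT.exists_system (idealOf V) hδ
  refine ⟨κ, fun p q hpq F G τ M α hχ Z hM U hU => ?_⟩
  obtain ⟨c, hc, hmem, hgen⟩ := hsys p q hpq
  have hroots : (⋃ i, {t : ℂ | (p i).eval t = 0 ∨ (q i).eval t = 0}).Finite := by
    refine Set.finite_iUnion fun i => ?_
    refine ((p i * q i).roots.toFinset.finite_toSet).subset fun t ht => ?_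
    rw [Finset.mem_coe, Multiset.mem_toFinset,
      Polynomial.mem_roots (mul_ne_zero (hpq i).1 (hpq i).2), IsRoot, eval_mul, mul_eq_zero]
    exact ht
  refine ((ConjugateParametersH20.result (n - δ) A hA c hc α U hU F G Z
    fun I hI L hL => ?_).union hroots).subset ?_
  · have h1 := hM I hI
    obtain ⟨⟨l, hl⟩, h2⟩ := hgen {l // l ∉ I} (fun l => α l) τ
      (by rw [Pool.Agent.V7H20.ZT.card_sub]; omega)
      (fun χ hχ0 => Pool.Agent.V7H20.ZT.ncard_sub I
        (fun l => ∑ i, χ i * (ord (p i) (α l) - ord (q i) (α l)) = 0) τ (hχ χ hχ0))
      L (by omega)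
    exact ⟨l, hl, h2⟩
  · rintro t ⟨h1, h2, h3⟩
    by_contra hcon
    rw [Set.mem_union, not_or] at hcon
    obtain ⟨h4, h5⟩ := hcon
    have ht : ∀ i, (p i).eval t ≠ 0 ∧ (q i).eval t ≠ 0 := by
      intro i
      rw [← not_or]
      exact fun h => h5 (Set.mem_iUnion.2 ⟨i, h⟩)
    have hg : ∀ i, (p i).eval t / (q i).eval t ≠ 0 := fun i => div_ne_zero (ht i).1 (ht i).2
    apply h3
    intro Λ η hη B hBW hBT hB
    have h6 : ConjugateParametersH20.NoAtypical (n - δ) (values U t)
        (ConjugateParametersH20.member A c t) := by
      by_contra h
      exact h4 ⟨h1, h2, h⟩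
    have h7 := h6 Λ η hη B (fun y hy => ?_) hBT hB
    · exact (Pool.Agent.V7H20.ZT.dim_bound hδ Λ h7).trans
        (Pool.Agent.N712.ZT.dim_tl_le _ hg V)
    · obtain ⟨x, hx, hxy⟩ := hBW hy
      have hyx : y = fun i => (p i).eval t / (q i).eval t * x i := funext hxy
      refine ⟨fun i => ?_, ?_⟩
      · rw [hxy]
        exact mul_ne_zero (hg i) (hV0 x hx i)
      · rw [hyx]
        exact hmem t ht x fun f hf => Pool.Agent.Results.MP_b7926e_nt.NoAtypical.mem_idealOf.1 hf x hx

end Pool.Agent.Results.MP_b7926e_nt.FinitelyGeneratedTranslatesH20
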