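import Pool.Agent.V7H32.CP.Closed

/-!
# Zilber's conjecture is a statement about the powers of the line `u + v = 1`

Let `line r` be the `r`-th power of the line `u + v = 1`, that is the set of the points
`(u_1, v_1, ..., u_r, v_r)` of the torus `(ℂ^×)^(2r)` with `u_i + v_i = 1` for all `i`. It is
irreducible, of dimension `r`, and defined over the rational numbers.

We prove that Zilber's conjecture (the question of the problem, for all irreducible subvarieties of
all complex tori; its statement below is the one of the frozen statement) is equivalent to each of
the following statements.

* `line r` has only finitely many maximal atypical subvarieties, for every `r`.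
* The union of the atypical subvarieties of `line r` is Zariski closed, for every `r`.
* The same two statements, for infinitely many `r` only.

The two corresponding statements for all irreducible subvarieties are in the list as well. So this
single sequence of varieties is universal: if there is a counterexample to the conjecture, of any
dimension and degree and with any complex coefficients, then there is one among the varieties
`line r`, and then `line r` is a counterexample for all large `r`.

## Outline of the proof

An irreducible closed subvariety of a torus is the locus of a point `x : ι → Kˣ` with coordinates
in an extension field `K` of the base field. Let `td x` be the transcendence degree of the field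
generated by `x` (the dimension), and `rk x` the rank of the group of the `a ∈ ℤ^ι` for which
`x ^ a` is a root of unity. The subvariety `X` with generic point `x` lies in an atypical subvariety
of `V` if and only if `X ⊆ V` and `dim V < td x + rk x`.

*From the line to everything.* A point `x` is sent to a point `X` of a power of the line, in such a
way that `X` has exactly the relations of `x`, up to the trivial ones, and `td X - td x` is a
constant which makes the images of atypical points atypical. New coordinates are always sums of
independent generic variables `t` and of an old quantity (blinding). Such linear forms
`∑ t_v + c`, with pairwise different pairs (set of variables, constant `c`), have no multiplicative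
relation, even modulo the constants. The steps are the following ones.
* The complex coefficients `c` of the equations of `V` are replaced by the coordinates `t`, `t'` and
  `t + t' + c`, and `V` by a variety over the rational numbers.
* By Noether normalization, the points of this variety are solutions of a system of polynomial
  equations all of whose solutions have the expected transcendence degree at most.
* A polynomial equation, a sum of monomials with signs, is replaced by equations with three terms
  (`a + b = c` for three monomials) in new coordinates, which are the blinded partial sums.
* The quotients of the terms of the equations with three terms are a point of a power of the line.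
  Three further equations for each coordinate make the homomorphism of the lattices of exponents
  surjective.

Finitely many maximal atypical subvarieties of a power of the line give finitely many relations
`x ^ a = 1`, `a ≠ 0`, such that each atypical point of `V` satisfies one of them.

*From everything to the line.* By induction on the dimension, the conjecture for all `n` gives
finitely many minimal prime ideals of atypical points. This is well known.

*Closed unions.* There are only countably many special varieties, hence countably many atypical
subvarieties. If their union `W` is closed, then each irreducible component of `W` is contained in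
one of them, since an irreducible complex variety is not the union of countably many proper
subvarieties: it has a point which is generic over a countable field.

*Infinitely many `r`.* A power of the line is embedded in a bigger one by means of new generic
variables `(-t, 1 + t)`.
-/

set_option autoImplicit false

namespace Pool.Agent.Results.MP_b7926e_nt.LinePowersH32

open Pool.Agent.V7H32.CP

/-- Zilber's conjecture holds if and only if, for all `r` (or for infinitely many `r`), the `r`-th
power of the line `u + v = 1` has only finitely many maximal atypical subvarieties, and if and only
if, for all `r` (or for infinitely many `r`), the union of its atypical subvarieties is Zariski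
closed. -/
theorem result : List.TFAE [
    -- Zilber's conjecture, as in the frozen statement
    ∀ (n : ℕ) (S : Set (MvPolynomial (Fin n) ℂ)) (V : Set (Fin n → ℂ)),
      V = {x : Fin n → ℂ | (∀ i, x i ≠ 0) ∧ ∀ p ∈ S, MvPolynomial.eval x p = 0} →
      (⨅ x ∈ V, RingHom.ker (MvPolynomial.eval x : MvPolynomial (Fin n) ℂ →+* ℂ)).IsPrime →
      ∃ (k : ℕ) (L : Fin k → Submodule ℤ (Fin n → ℤ)) (ζ : Fin k → Fin n → ℂ),
        (∀ j, L j ≠ ⊥ ∧
          (∀ a : Fin n → ℤ, ∀ m : ℤ, m ≠ 0 → m • a ∈ L j → a ∈ L j) ∧
          ∃ m : ℕ, 0 < m ∧ ∀ i, ζ j i ^ m = 1) ∧
        ∀ (M : Submodule ℤ (Fin n → ℤ)) (η : Fin n → ℂ) (T : Set (Fin n → ℂ)),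
          (∀ a : Fin n → ℤ, ∀ m : ℤ, m ≠ 0 → m • a ∈ M → a ∈ M) →
          (∃ m : ℕ, 0 < m ∧ ∀ i, η i ^ m = 1) →
          T = {y : Fin n → ℂ | (∀ i, y i ≠ 0) ∧
                ∀ a ∈ M, ∏ i, y i ^ a i = ∏ i, η i ^ a i} →
          ∀ X : Set (Fin n → ℂ), X ⊆ V → X ⊆ T →
            (⨅ x ∈ X, RingHom.ker (MvPolynomial.eval x : MvPolynomial (Fin n) ℂ →+* ℂ)).IsPrime →
            ringKrullDim (MvPolynomial (Fin n) ℂ ⧸
                (⨅ x ∈ V, RingHom.ker (MvPolynomial.eval x : MvPolynomial (Fin n) ℂ →+* ℂ)))
              + ringKrullDim (MvPolynomial (Fin n) ℂ ⧸
                (⨅ x ∈ T, RingHom.ker (MvPolynomial.eval x : MvPolynomial (Fin n) ℂ →+* ℂ)))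
              < ringKrullDim (MvPolynomial (Fin n) ℂ ⧸
                (⨅ x ∈ X, RingHom.ker (MvPolynomial.eval x : MvPolynomial (Fin n) ℂ →+* ℂ)))
                + (n : WithBot ℕ∞) →
            ∃ j, X ⊆ {y : Fin n → ℂ | (∀ i, y i ≠ 0) ∧
                ∀ a ∈ L j, ∏ i, y i ^ a i = ∏ i, ζ j i ^ a i},
    -- all irreducible subvarieties of all tori
    ∀ (ι : Type) [Fintype ι] (V : Set (ι → ℂ)), IsVar V → {X | Maximal (Atypical V) X}.Finite,
    ∀ (ι : Type) [Fintype ι] (V : Set (ι → ℂ)), IsVar V → IsClosedIn (⋃₀ {X | Atypical V X}),
    -- the powers of the line
    ∀ r : ℕ, {X | Maximal (Atypical (line r)) X}.Finite,
    ∀ r : ℕ, IsClosedIn (⋃₀ {X | Atypical (line r) X}),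
    -- infinitely many powers of the line
    ∀ N : ℕ, ∃ r ≥ N, {X | Maximal (Atypical (line r)) X}.Finite,
    ∀ N : ℕ, ∃ r ≥ N, IsClosedIn (⋃₀ {X | Atypical (line r) X})] :=
  main

end Pool.Agent.Results.MP_b7926e_nt.LinePowersH32
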