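import Pool.Agent.V7H14.TR.Rat

/-!
# MP_b7926e_nt: no atypical intersections with torsion cosets for the members with rational parameters near a point

The families are those of the starting theorem `FewExceptionalParameters`: `X_t ⊂ (ℂ^×)^n` is defined by the Laurent
polynomials `f_j = ∑_β c_jβ(t) x^β`, `β ∈ A_j`, `j ≤ m`, with arbitrary nonzero polynomials `c_jβ ∈ ℂ[t]` (`member`), and
it is supposed that there are algebraic numbers `α_1, …, α_M` such that no linear subspace of `ℚ^n` of dimension less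
than `r` meets all the tropicalizations `Trop_{α_l}` of the family at `t = α_l`. `NoAtypical r Γ X_t` says that every
irreducible subset of the intersection of `X_t` with a coset `η H` of an algebraic subgroup, whose coordinates are units
of the integral closure of `ℤ[Γ]`, `Γ ⊂ ℂ` finite, has dimension at most `dim H - r`; in particular (`H` the torus)
the components of `X_t` have dimension at most `n - r`, and those of dimension `n - r` contain no atypical subvariety.

`H(t)` is the height of the rational number `t`, the maximum of its denominator and of the absolute value of its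
numerator.

**Theorem.** Let `X` be a metric space with any map `φ : ℚ → X`, for instance the real line or the field of the
`p`-adic numbers with the inclusion. Let `V` be a set of positive integers which has at most `C B ^ (ν + ε)` elements up
to `B`, for all `ε > 0`. (1) For `τ > 0` there is ONE set `E ⊂ X` of Hausdorff dimension at most `ν / τ` such that for
all `ξ ∈ X` outside `E`, all constants `a` and ALL the families (all `n`, `m`, `r`, `A`, `c` over the complex numbers,
and all `Γ`): all but finitely many of the rational numbers `t` with denominator in `V` and `|t - ξ| ≤ a H(t) ^ (-τ)` are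
such that `X_t` has no atypical intersections. (2) For `ν = 0` there is one set `E` of Hausdorff dimension zero for all
`τ > 0`. (3) For almost all real numbers `ξ`, for all families, all but finitely many of all the rational numbers `t` with
`|t - ξ| ≤ a H(t) ^ (-τ)` are good, for all `τ > 1` (there are about `B ^ (2 - τ)` of them up to height `B`, and all
convergents of `ξ` and all rational numbers with `|t - p / q| ≤ q^(-τ)` for a convergent are among them for
`τ < 2`). (4) Examples: `V` the set of all positive integers, `ν = 1`; `V` the set of the numbers all of whose prime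
factors are in a given finite set, `ν = 0` (for `V = {1}` the integers). So outside a set of dimension zero all but
finitely many of the truncations `⌊g^n ξ⌋ / g^n` of the expansion of a real number `ξ` to a base `g` are
good, and so are the partial sums of the expansion of a `p`-adic integer.

The starting theorem `FewExceptionalParameters` bounds the number of the exceptional numerators up to `B` for each
denominator by `C (log B) ^ s`; this is much more than the number of the convergents or of the truncations, which may all be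
exceptional for a single `ξ`.

Proof. The exceptional parameters are contained in a finite set and in finitely many of the sets `Br G D` of the `t`
for which the value at `t` of the homogeneous form of the polynomial `G ∈ ℤ[X]` has no prime factor above `D` (proof of the
starting theorem, by helper199). There are countably many sets `Br G D`, they are counted in the starting files, and
the dimension of the set of the `ξ` near infinitely many of their elements is bounded by `Pool.Agent.R559.NP`.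
-/

set_option autoImplicit false

namespace Pool.Agent.Results.MP_b7926e_nt.RationalsNearAPointH14

open MeasureTheory
open Pool.Agent.Results.MP_b7926e_nt.FewExceptionalParameters (member order Trop NoAtypical)
open Pool.Agent.V7H14.TR (ht CountExp Br one_le_ht count_Br good_of_rat)

/-- All but finitely many of the rational parameters in `Z` are good, for all families of subvarieties of tori over the
complex numbers whose tropicalizations at some algebraic parameters are in general position. -/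
def AlmostAllGood (Z : Set ℚ) : Prop :=
  ∀ (n m M r : ℕ) (A : Fin m → Finset (Fin n → ℤ)), (∀ j, (A j).Nonempty) →
  ∀ c : Fin m → (Fin n → ℤ) → Polynomial ℂ, (∀ j, ∀ β ∈ A j, c j β ≠ 0) →
  ∀ α : Fin M → ℂ, (∀ l, IsAlgebraic ℚ (α l)) →
    (∀ L : Submodule ℚ (Fin n → ℚ), Module.finrank ℚ L < r → ∃ l, ∀ w ∈ L, w ∉ Trop A (order c (α l))) →
  ∀ Γ : Set ℂ, Γ.Finite → {t : ℚ | t ∈ Z ∧ ¬ NoAtypical r Γ (member A c t)}.Finite

/-- the rational numbers `t` with denominator in `V` and distance at most `a H(t) ^ (-τ)` from `ξ` -/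
def Near {X : Type} [MetricSpace X] (φ : ℚ → X) (V : Set ℕ) (ξ : X) (a τ : ℝ) : Set ℚ :=
  {t | t.den ∈ V ∧ dist (φ t) ξ ≤ a * (ht t : ℝ) ^ (-τ)}

lemma almostAllGood_of {Z : Set ℚ}
    (h : ∀ (G : Polynomial ℤ) (D : ℕ), G.natDegree ≠ 0 → {t : ℚ | t ∈ Z ∧ t ∈ Br G D}.Finite) : AlmostAllGood Z := by
  intro n m M r A hA c hc α hα hgen Γ hΓ
  obtain ⟨F, G, D, hF, hG, hgood⟩ := good_of_rat r A hA c hc α hα hgen Γ hΓ
  refine (hF.union (Set.finite_iUnion fun l => h (G l) (D l) (hG l))).subset ?_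
  rintro t ⟨ht, hbad⟩
  by_contra hcon
  rw [Set.mem_union, not_or, Set.mem_iUnion, not_exists] at hcon
  exact hbad (hgood t hcon.1 fun l hl => hcon.2 l ⟨ht, hl⟩)

lemma AlmostAllGood.mono {Z Z' : Set ℚ} (h : AlmostAllGood Z') (hZ : Z ⊆ Z') : AlmostAllGood Z := by
  intro n m M r A hA c hc α hα hgen Γ hΓ
  exact (h n m M r A hA c hc α hα hgen Γ hΓ).subset fun t ht => ⟨hZ ht.1, ht.2⟩

lemma near_mono {X : Type} [MetricSpace X] (φ : ℚ → X) (V : Set ℕ) (ξ : X) (a : ℝ) {τ τ' : ℝ} (h : τ' ≤ τ) :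
    Near φ V ξ a τ ⊆ Near φ V ξ |a| τ' := by
  rintro t ⟨h1, h2⟩
  refine ⟨h1, h2.trans ?_⟩
  have h3 := one_le_ht t
  exact mul_le_mul (le_abs_self a) (Real.rpow_le_rpow_of_exponent_le h3 (by linarith))
    (Real.rpow_nonneg (by linarith) _) (abs_nonneg a)

lemma main (X : Type) [MetricSpace X] (φ : ℚ → X) (V : Set ℕ) (ν τ : ℝ) (hν : 0 ≤ ν) (hτ : 0 < τ)
    (hV : CountExp V ν) : ∃ E : Set X, dimH E ≤ ENNReal.ofReal (ν / τ) ∧
      ∀ ξ : X, ξ ∉ E → ∀ a : ℝ, AlmostAllGood (Near φ V ξ a τ) := by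
  have h1 : ∀ d : {G : Polynomial ℤ // G.natDegree ≠ 0} × ℕ, ∃ E : Set X, dimH E ≤ ENNReal.ofReal (ν / τ) ∧
      ∀ ξ : X, ξ ∉ E → ∀ a : ℝ, {t : ℚ | t ∈ Near φ V ξ a τ ∧ t ∈ Br d.1.1 d.2}.Finite := by
    intro d
    obtain ⟨E, hE1, hE2⟩ := Pool.Agent.R559.NP.near_dim (H := fun t : ℚ => (ht t : ℝ)) one_le_ht
      (Bad := fun t : ℚ => t.den ∈ V ∧ t ∈ Br d.1.1 d.2) hν hτ (count_Br d.1.1 d.1.2 d.2 V hν hV) φ
    refine ⟨E, hE1, fun ξ hξ a => (hE2 ξ hξ a).subset ?_⟩
    rintro t ⟨⟨h2, h3⟩, h4⟩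
    exact ⟨h3, h2, h4⟩
  choose E hE1 hE2 using h1
  have hcountable : Countable (Polynomial ℤ) := by
    rw [← Cardinal.mk_le_aleph0_iff]
    refine Polynomial.cardinalMk_le_max.trans ?_
    simp
  refine ⟨⋃ d, E d, ?_, fun ξ hξ a => almostAllGood_of fun G D hG => ?_⟩
  · rw [dimH_iUnion]
    exact iSup_le hE1
  · rw [Set.mem_iUnion, not_exists] at hξ
    exact hE2 ⟨⟨G, hG⟩, D⟩ ξ (hξ _) a

lemma countExp_univ : CountExp Set.univ 1 := by
  intro ε hε
  refine ⟨2, fun X hX => ?_⟩
  have hX1 : (1 : ℝ) ≤ X := by exact_mod_cast hX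
  have h1 : {v : ℕ | v ∈ Set.univ ∧ v ≤ X} = ((Finset.range (X + 1) : Finset ℕ) : Set ℕ) := by
    ext v
    simp
  rw [h1, Set.ncard_coe_finset, Finset.card_range]
  have h2 : (X : ℝ) ≤ (X : ℝ) ^ (1 + ε) := by
    calc (X : ℝ) = (X : ℝ) ^ (1 : ℝ) := (Real.rpow_one _).symm
      _ ≤ _ := Real.rpow_le_rpow_of_exponent_le hX1 (by linarith)
  push_cast
  linarith

lemma countExp_units (S : Finset ℕ) : CountExp {v : ℕ | v ≠ 0 ∧ v.primeFactors ⊆ S} 0 := by
  classical
  intro ε hε
  have hδ : 0 < ε / ((S.card : ℝ) + 1) := by positivity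
  obtain ⟨C, hC0, hC⟩ : ∃ C : ℝ, 0 ≤ C ∧ ∀ X : ℕ, 1 ≤ X →
      ((Nat.log 2 X + 1 : ℕ) : ℝ) ≤ C * (X : ℝ) ^ (ε / ((S.card : ℝ) + 1)) := by
    refine ⟨1 / Real.log 2 / (ε / ((S.card : ℝ) + 1)) + 1, by
      have := Real.log_pos one_lt_two
      positivity, fun X hX => ?_⟩
    have hX1 : (1 : ℝ) ≤ X := by exact_mod_cast hX
    have hl2 : 0 < Real.log 2 := Real.log_pos one_lt_two
    have h1 : (2 : ℝ) ^ (Nat.log 2 X) ≤ X := by exact_mod_cast Nat.pow_log_le_self 2 (by omega)
    have h2 := Real.log_le_log (by positivity) h1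
    rw [Real.log_pow] at h2
    have h3 : (Nat.log 2 X : ℝ) ≤ Real.log X / Real.log 2 := by
      rw [le_div_iff₀ hl2]
      exact h2
    have h4 := Real.log_le_rpow_div (by linarith : (0 : ℝ) ≤ X) hδ
    have h5 : (1 : ℝ) ≤ (X : ℝ) ^ (ε / ((S.card : ℝ) + 1)) := Real.one_le_rpow hX1 hδ.le
    have h6 : Real.log X / Real.log 2 ≤
        1 / Real.log 2 / (ε / ((S.card : ℝ) + 1)) * (X : ℝ) ^ (ε / ((S.card : ℝ) + 1)) := by
      calc Real.log X / Real.log 2 ≤ ((X : ℝ) ^ (ε / ((S.card : ℝ) + 1)) / (ε / ((S.card : ℝ) + 1))) / Real.log 2 :=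
            div_le_div_of_nonneg_right h4 hl2.le
        _ = _ := by ring
    push_cast
    linarith
  refine ⟨C ^ S.card, fun X hX => ?_⟩
  have hX1 : (1 : ℝ) ≤ X := by exact_mod_cast hX
  have hX0 : (0 : ℝ) ≤ X := by linarith
  have hcard : {v : ℕ | v ∈ {v : ℕ | v ≠ 0 ∧ v.primeFactors ⊆ S} ∧ v ≤ X}.ncard ≤ (Nat.log 2 X + 1) ^ S.card := by
    have h1 : (((Fintype.piFinset fun _ : S => Finset.range (Nat.log 2 X + 1)) : Finset (S → ℕ)) : Set (S → ℕ)).ncard =
        (Nat.log 2 X + 1) ^ S.card := by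
      rw [Set.ncard_coe_finset, Fintype.card_piFinset]
      simp
    rw [← h1]
    refine Set.ncard_le_ncard_of_injOn (fun v : ℕ => fun p : S => v.factorization p) ?_ ?_ (Finset.finite_toSet _)
    · rintro v ⟨⟨hv0, -⟩, hvX⟩
      rw [Finset.mem_coe, Fintype.mem_piFinset]
      intro p
      rw [Finset.mem_range, Nat.lt_succ_iff]
      by_cases hp : (p : ℕ).Prime
      · refine Nat.le_log_of_pow_le one_lt_two ?_
        calc 2 ^ v.factorization p ≤ (p : ℕ) ^ v.factorization p := Nat.pow_le_pow_left hp.two_le _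
          _ ≤ v := Nat.le_of_dvd (Nat.pos_of_ne_zero hv0) (Nat.ordProj_dvd v p)
          _ ≤ X := hvX
      · rw [Nat.factorization_eq_zero_of_not_prime v hp]
        exact Nat.zero_le _
    · rintro v ⟨⟨hv0, hvS⟩, -⟩ w ⟨⟨hw0, hwS⟩, -⟩ h
      refine Nat.eq_of_factorization_eq hv0 hw0 fun p => ?_
      by_cases hp : p ∈ S
      · exact congrFun h ⟨p, hp⟩
      · have h2 : p ∉ v.primeFactors := fun h3 => hp (hvS h3)
        have h3 : p ∉ w.primeFactors := fun h3 => hp (hwS h3)
        rw [← Nat.support_factorization, Finsupp.notMem_support_iff] at h2 h3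
        rw [h2, h3]
  calc ({v : ℕ | v ∈ {v : ℕ | v ≠ 0 ∧ v.primeFactors ⊆ S} ∧ v ≤ X}.ncard : ℝ)
      ≤ (((Nat.log 2 X + 1) ^ S.card : ℕ) : ℝ) := by exact_mod_cast hcard
    _ = ((Nat.log 2 X + 1 : ℕ) : ℝ) ^ S.card := by push_cast; rfl
    _ ≤ (C * (X : ℝ) ^ (ε / ((S.card : ℝ) + 1))) ^ S.card := pow_le_pow_left₀ (by positivity) (hC X hX) _
    _ = C ^ S.card * (X : ℝ) ^ (ε / ((S.card : ℝ) + 1) * S.card) := by
        rw [mul_pow, ← Real.rpow_natCast ((X : ℝ) ^ (ε / ((S.card : ℝ) + 1))), ← Real.rpow_mul hX0]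
    _ ≤ C ^ S.card * (X : ℝ) ^ (0 + ε) := by
        refine mul_le_mul_of_nonneg_left (Real.rpow_le_rpow_of_exponent_le hX1 ?_) (by positivity)
        rw [zero_add, div_mul_eq_mul_div, div_le_iff₀ (by positivity)]
        nlinarith

/-- **Theorem.** (1) One exceptional set of Hausdorff dimension at most `ν / τ` for all families of subvarieties of tori
over the complex numbers, for the rational parameters near a point with denominators in a set with exponent `ν`. (2) For
`ν = 0` one set of Hausdorff dimension zero for all `τ > 0`. (3) For almost all real numbers `ξ`: all rational parameters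
`t` with `|t - ξ| ≤ a H(t) ^ (-τ)`, `τ > 1`. (4), (5) Examples of `V`. -/
theorem result :
    (∀ (X : Type) [MetricSpace X] (φ : ℚ → X) (V : Set ℕ) (ν τ : ℝ), 0 ≤ ν → 0 < τ → CountExp V ν →
      ∃ E : Set X, dimH E ≤ ENNReal.ofReal (ν / τ) ∧
        ∀ ξ : X, ξ ∉ E → ∀ a : ℝ, AlmostAllGood (Near φ V ξ a τ)) ∧
    (∀ (X : Type) [MetricSpace X] (φ : ℚ → X) (V : Set ℕ), CountExp V 0 →
      ∃ E : Set X, dimH E = 0 ∧ ∀ ξ : X, ξ ∉ E → ∀ a τ : ℝ, 0 < τ → AlmostAllGood (Near φ V ξ a τ)) ∧
    (∀ᵐ ξ : ℝ, ∀ a τ : ℝ, 1 < τ → AlmostAllGood (Near (fun t : ℚ => (t : ℝ)) Set.univ ξ a τ)) ∧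
    CountExp Set.univ 1 ∧
    (∀ S : Finset ℕ, CountExp {v : ℕ | v ≠ 0 ∧ v.primeFactors ⊆ S} 0) := by
  refine ⟨fun X _ φ V ν τ hν hτ hV => main X φ V ν τ hν hτ hV, fun X _ φ V hV => ?_, ?_, countExp_univ,
    countExp_units⟩
  · have h1 : ∀ k : ℕ, ∃ E : Set X, dimH E = 0 ∧
        ∀ ξ : X, ξ ∉ E → ∀ a : ℝ, AlmostAllGood (Near φ V ξ a (1 / ((k : ℝ) + 1))) := by
      intro k
      obtain ⟨E, hE1, hE2⟩ := main X φ V 0 (1 / ((k : ℝ) + 1)) le_rfl (by positivity) hV
      rw [zero_div, ENNReal.ofReal_zero] at hE1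
      exact ⟨E, nonpos_iff_eq_zero.1 hE1, hE2⟩
    choose E hE1 hE2 using h1
    refine ⟨⋃ k, E k, ?_, fun ξ hξ a τ hτ => ?_⟩
    · rw [dimH_iUnion]
      simp [hE1]
    · rw [Set.mem_iUnion, not_exists] at hξ
      obtain ⟨k, hk⟩ := exists_nat_one_div_lt hτ
      exact (hE2 k ξ (hξ k) |a|).mono (near_mono φ V ξ a hk.le)
  · have h1 : ∀ k : ℕ, ∀ᵐ ξ : ℝ, ∀ a : ℝ,
        AlmostAllGood (Near (fun t : ℚ => (t : ℝ)) Set.univ ξ a (1 + 1 / ((k : ℝ) + 1))) := by
      intro k
      have hk : (0 : ℝ) < 1 / ((k : ℝ) + 1) := by positivity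
      obtain ⟨E, hE1, hE2⟩ := main ℝ (fun t : ℚ => (t : ℝ)) Set.univ 1 (1 + 1 / ((k : ℝ) + 1)) zero_le_one
        (by positivity) countExp_univ
      have hzero : volume E = 0 := by
        refine measure_zero_of_dimH_lt (d := 1) ?_ ?_
        · rw [show ((1 : NNReal) : ℝ) = 1 from rfl, hausdorffMeasure_real]
        · refine lt_of_le_of_lt hE1 ?_
          rw [ENNReal.coe_one, ← ENNReal.ofReal_one]
          refine (ENNReal.ofReal_lt_ofReal_iff zero_lt_one).2 ?_
          rw [div_lt_one (by positivity)]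
          linarith
      have hae : ∀ᵐ ξ : ℝ, ξ ∉ E := by
        rw [ae_iff]
        simpa using hzero
      filter_upwards [hae] with ξ hξ a
      exact hE2 ξ hξ a
    rw [← ae_all_iff] at h1
    filter_upwards [h1] with ξ hξ a τ hτ
    obtain ⟨k, hk⟩ := exists_nat_one_div_lt (sub_pos.2 hτ)
    exact (hξ k |a|).mono (near_mono _ _ ξ a (by linarith))

end Pool.Agent.Results.MP_b7926e_nt.RationalsNearAPointH14
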